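import Pool.Agent.H30.T1.S4
import Pool.Agent.H79.HYP.INF

/-!
# T1, INFK: the lattice at infinity
-/

set_option autoImplicit false

namespace Pool.T1

open Polynomial Matrix Pool.HYP Pool.AVS IsDedekindDomain

namespace Inf98

open Pool.HYP.Inf79 (tau_map gr_map gr_det_ne gr_scale)

section val

variable {K : Type} [Field K] (O : ValuationSubring K) (π : K)

/-- `x` has valuation `n`. -/
def IsV (x : K) (n : ℤ) : Prop := x / π ^ n ∈ O ∧ (x / π ^ n)⁻¹ ∈ O

variable {O π}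

theorem IsV.mul {x y : K} {n m : ℤ} (hp : π ≠ 0) (hx : IsV O π x n) (hy : IsV O π y m) :
    IsV O π (x * y) (n + m) := by
  have h1 : x * y / π ^ (n + m) = x / π ^ n * (y / π ^ m) := by
    rw [zpow_add₀ hp, div_mul_div_comm]
  unfold IsV
  rw [h1]
  refine ⟨O.mul_mem _ _ hx.1 hy.1, ?_⟩
  rw [mul_inv]
  exact O.mul_mem _ _ hx.2 hy.2

theorem zpow_mem {n : ℤ} (hm : π ∈ O) (hn : 0 ≤ n) : π ^ n ∈ O := by
  obtain ⟨k, rfl⟩ := Int.eq_ofNat_of_zero_le hn
  rw [zpow_natCast]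
  exact pow_mem hm k

theorem nonneg {n : ℤ} (hp : π ≠ 0) (hm : π ∈ O) (hi : π⁻¹ ∉ O) (h : π ^ n ∈ O) : 0 ≤ n := by
  by_contra hc
  apply hi
  have h1 : π⁻¹ = π ^ n * π ^ (-1 - n) := by
    rw [← zpow_add₀ hp, show n + (-1 - n) = -1 by ring, _root_.zpow_neg_one]
  rw [h1]
  exact O.mul_mem _ _ h (zpow_mem hm (by omega))

theorem IsV.unique {x : K} {n m : ℤ} (hp : π ≠ 0) (hm : π ∈ O) (hi : π⁻¹ ∉ O) (hx0 : x ≠ 0)
    (hx : IsV O π x n) (hy : IsV O π x m) : n = m := by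
  have key : ∀ {a b : ℤ}, IsV O π x a → IsV O π x b → 0 ≤ b - a := by
    intro a b ha hb
    apply nonneg hp hm hi
    have h1 : π ^ (b - a) = x / π ^ a * (x / π ^ b)⁻¹ := by
      rw [zpow_sub₀ hp]
      have h2 := zpow_ne_zero a hp
      have h3 := zpow_ne_zero b hp
      field_simp
    rw [h1]
    exact O.mul_mem _ _ ha.1 hb.2
  have h1 := key hx hy
  have h2 := key hy hx
  omega

theorem IsV.pi (hp : π ≠ 0) (n : ℤ) : IsV O π (π ^ n) n := by
  unfold IsV
  rw [div_self (zpow_ne_zero _ hp), inv_one]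
  exact ⟨O.one_mem, O.one_mem⟩

theorem IsV.unit {x : K} (h1 : x ∈ O) (h2 : x⁻¹ ∈ O) : IsV O π x 0 := by
  unfold IsV
  rw [zpow_zero, div_one]
  exact ⟨h1, h2⟩

theorem res_unit {x : O} (h : IsLocalRing.residue O x ≠ 0) : (x : K) ≠ 0 ∧ (x : K)⁻¹ ∈ O := by
  rw [IsLocalRing.residue_ne_zero_iff_isUnit] at h
  obtain ⟨y, hy⟩ := h.exists_right_inv
  have h1 : (x : K) * (y : K) = 1 := by
    have := congrArg (fun z : O => (z : K)) hy
    simpa using this
  have h2 : (x : K) ≠ 0 := by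
    intro h0
    rw [h0, zero_mul] at h1
    exact zero_ne_one h1
  refine ⟨h2, ?_⟩
  rw [inv_eq_of_mul_eq_one_right h1]
  exact y.2

end val

section place

variable {R : Type} [CommRing R] [IsDomain R] {K : Type} [Field K] [Algebra R K]
  {O : ValuationSubring K} {π : K}

theorem main (hG : GR R O π) (g : ℕ) (top : (IsLocalRing.ResidueField O)[X]) (h : ℕ)
    (htm : top.Monic) (htn : top.natDegree = 2 * g + 1)
    (hti : Irreducible top) (f : R[X]) (hfm : f.Monic) (hfn : f.natDegree = 2 * g + 1)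
    (hco : ∀ i ≤ 2 * g + 1, f.coeff (2 * g + 1 - i) ∈ Lm R O π ((i * h : ℕ) : ℤ))
    (htop : Top π g h top f)
    (α : K[X]) (hα : IsCoprime α (fk K f)) (hsq : NSq (fk K f) α) :
    ∃ gi : Matrix (Fin (2 * g + 1)) (Fin (2 * g + 1)) K, gi.det ≠ 0 ∧
      GIn (O : Set K) (giᵀ * gr 0 (2 * g + 1) (fk K f) α * gi) ∧
      MIn (O : Set K) (π ^ h • (giᵀ * gr 1 (2 * g + 1) (fk K f) α * gi)) := by
  classical
  have hp0 : π ≠ 0 := hG.pi_ne
  have hpm : π ∈ O := hG.pi_mem
  have hpi : π⁻¹ ∉ O := hG.pi_inv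
  obtain ⟨s, hs⟩ : ∃ s : K, s = (π ^ h)⁻¹ := ⟨_, rfl⟩
  have hs0 : s ≠ 0 := by rw [hs]; exact inv_ne_zero (pow_ne_zero _ hp0)
  have hsi : s⁻¹ = π ^ h := by rw [hs, inv_inv]
  have hfKm : (fk K f).Monic := hfm.map _
  have hfKn : (fk K f).natDegree = 2 * g + 1 := by rw [fk, hfm.natDegree_map, hfn]
  obtain ⟨B, hB⟩ : ∃ B : K[X], B = (fk K f).scaleRoots s⁻¹ := ⟨_, rfl⟩
  have hBm : B.Monic := by rw [hB]; exact (monic_scaleRoots_iff _).mpr hfKm
  have hBn : B.natDegree = 2 * g + 1 := by rw [hB, natDegree_scaleRoots, hfKn]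
  have hBc : ∀ i ≤ 2 * g + 1, ∃ x : O, B.coeff i = x ∧
      IsLocalRing.residue O x = top.coeff i := by
    intro i hi
    have h1 := hco (2 * g + 1 - i) (by omega)
    have h2 := htop (2 * g + 1 - i) (by omega)
    rw [show 2 * g + 1 - (2 * g + 1 - i) = i by omega] at h1 h2
    have h3 : B.coeff i = algebraMap R K (f.coeff i) * π ^ ((2 * g + 1 - i) * h) := by
      rw [hB, coeff_scaleRoots, hfKn, coeff_map, hsi, ← pow_mul, mul_comm h]
    have h4 : algebraMap R K (f.coeff i) * π ^ ((2 * g + 1 - i) * h) ∈ O := by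
      have h5 : algebraMap R K (f.coeff i) * π ^ (((2 * g + 1 - i) * h : ℕ) : ℤ) ∈ O := h1
      rwa [zpow_natCast] at h5
    exact ⟨⟨_, h4⟩, h3, h2 ⟨_, h4⟩ rfl⟩
  obtain ⟨A, hAK⟩ : ∃ A : O[X], A.map (algebraMap O K) = B := by
    have h1 : B ∈ lifts (algebraMap O K) := by
      rw [lifts_iff_coeff_lifts]
      intro j
      rcases le_or_gt j (2 * g + 1) with hi | hi
      · obtain ⟨y, hy, -⟩ := hBc j hi
        exact ⟨y, hy.symm⟩
      · rw [coeff_eq_zero_of_natDegree_lt (by omega)]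
        exact ⟨0, map_zero _⟩
    exact h1
  have hinj : Function.Injective (algebraMap O K) := IsFractionRing.injective O K
  have hAm : A.Monic := by
    apply monic_of_injective hinj
    rw [hAK]
    exact hBm
  have hAn : A.natDegree = 2 * g + 1 := by
    rw [← hAm.natDegree_map (algebraMap O K), hAK, hBn]
  have hAr : A.map (IsLocalRing.residue O) = top := by
    ext i
    rw [coeff_map]
    rcases le_or_gt i (2 * g + 1) with hi | hi
    · obtain ⟨y, hy, hy'⟩ := hBc i hi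
      have : A.coeff i = y := by
        apply hinj
        rw [← coeff_map, hAK]
        exact hy
      rw [this, hy']
    · rw [coeff_eq_zero_of_natDegree_lt (by omega), map_zero,
        coeff_eq_zero_of_natDegree_lt (by omega)]
  -- the class
  obtain ⟨u, hu⟩ : ∃ u : K[X], u = α %ₘ fk K f := ⟨_, rfl⟩
  have hun : u.natDegree < 2 * g + 1 := by
    rw [hu, ← hfKn]
    exact natDegree_modByMonic_lt _ hfKm (by
      intro h1
      rw [h1, natDegree_one] at hfKn
      omega)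
  have hu0 : u ≠ 0 := by
    intro h0
    have hd : fk K f ∣ α := by
      rw [← modByMonic_eq_zero_iff_dvd hfKm, ← hu, h0]
    have h2 : IsUnit (fk K f) := hα.isUnit_of_dvd' hd dvd_rfl
    have h3 := natDegree_eq_zero_of_isUnit h2
    omega
  have hval : ∀ i : ℕ, ∃ n : ℤ, u.coeff i ≠ 0 → IsV O π (u.coeff i * s ^ i) n := by
    intro i
    by_cases hi : u.coeff i = 0
    · exact ⟨0, fun h1 => absurd hi h1⟩
    · obtain ⟨n, hn⟩ := hG.val (u.coeff i * s ^ i) (mul_ne_zero hi (pow_ne_zero _ hs0))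
      exact ⟨n, fun _ => hn⟩
  choose v hv using hval
  obtain ⟨m, hm, hmin⟩ := Finset.exists_min_image u.support v (by
      rwa [nonempty_support_iff])
  obtain ⟨d, hd⟩ : ∃ d : ℤ, d = v m := ⟨_, rfl⟩
  rw [← hd] at hmin
  have hm0 : u.coeff m ≠ 0 := mem_support_iff.mp hm
  have hmem : ∀ i, u.coeff i * s ^ i * (π ^ d)⁻¹ ∈ O := by
    intro i
    by_cases hi : u.coeff i = 0
    · rw [hi, zero_mul, zero_mul]
      exact O.zero_mem
    · have h1 := hv i hi
      have h2 : u.coeff i * s ^ i * (π ^ d)⁻¹ =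
          u.coeff i * s ^ i / π ^ v i * π ^ (v i - d) := by
        rw [zpow_sub₀ hp0]
        have h3 := zpow_ne_zero d hp0
        have h4 := zpow_ne_zero (v i) hp0
        field_simp
      rw [h2]
      have h5 := hmin i (mem_support_iff.mpr hi)
      exact O.mul_mem _ _ h1.1 (zpow_mem hpm (by omega))
  obtain ⟨b, hb⟩ : ∃ b : O[X], b = ∑ i ∈ Finset.range (2 * g + 1),
    monomial i (⟨_, hmem i⟩ : O) := ⟨_, rfl⟩
  have hbc : ∀ i, i < 2 * g + 1 → b.coeff i = ⟨_, hmem i⟩ := by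
    intro i hi
    rw [hb, finsetSum_coeff, Finset.sum_eq_single i]
    · rw [coeff_monomial, if_pos rfl]
    · intro j _ hj
      rw [coeff_monomial, if_neg hj]
    · intro h1
      exact absurd (Finset.mem_range.mpr hi) h1
  have hbc' : ∀ i, 2 * g + 1 ≤ i → b.coeff i = 0 := by
    intro i hi
    rw [hb, finsetSum_coeff]
    refine Finset.sum_eq_zero fun j hj => ?_
    rw [coeff_monomial, if_neg]
    have := Finset.mem_range.mp hj
    omega
  have hbK : u.comp (C s * X) = C (π ^ d) * b.map (algebraMap O K) := by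
    ext i
    rw [comp_C_mul_X_coeff, coeff_C_mul, coeff_map]
    rcases lt_or_ge i (2 * g + 1) with hi | hi
    · rw [hbc i hi]
      show _ = _ * (u.coeff i * s ^ i * (π ^ d)⁻¹)
      have := zpow_ne_zero d hp0
      field_simp
    · rw [hbc' i hi, map_zero, mul_zero, coeff_eq_zero_of_natDegree_lt (by omega), zero_mul]
  have hmn : m < 2 * g + 1 := lt_of_le_of_lt (le_natDegree_of_mem_supp m hm) hun
  have hbr : b.map (IsLocalRing.residue O) ≠ 0 := by
    intro h0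
    have h1 : (b.map (IsLocalRing.residue O)).coeff m ≠ 0 := by
      rw [coeff_map, hbc m hmn, IsLocalRing.residue_ne_zero_iff_isUnit]
      have h2 := hv m hm0
      rw [← hd] at h2
      refine IsUnit.of_mul_eq_one (⟨_, h2.2⟩ : O) ?_
      apply Subtype.ext
      show u.coeff m * s ^ m * (π ^ d)⁻¹ * (u.coeff m * s ^ m / π ^ d)⁻¹ = 1
      rw [← div_eq_mul_inv (u.coeff m * s ^ m) (π ^ d)]
      exact mul_inv_cancel₀ (div_ne_zero (mul_ne_zero hm0 (pow_ne_zero _ hs0))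
        (zpow_ne_zero _ hp0))
    rw [h0, coeff_zero] at h1
    exact h1 rfl
  have hM : IsLocalRing.residue O (gr 0 (2 * g + 1) A b).det ≠ 0 := by
    rw [RingHom.map_det, RingHom.mapMatrix_apply, gr_map (IsLocalRing.residue O) hAm, hAr]
    refine gr_det_ne htm htn hti hbr ?_
    rw [degree_eq_natDegree hti.ne_zero, htn, degree_lt_iff_coeff_zero]
    intro k hk
    rw [coeff_map, hbc' k (by exact_mod_cast hk), map_zero]
  obtain ⟨hD0, hD1⟩ := res_unit hM
  -- the Gram matrices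
  have key : ∀ k (i j : Fin (2 * g + 1)), s ^ (2 * g) * gr k (2 * g + 1) (fk K f) α i j =
      s ^ ((i : ℕ) + j + k) * (π ^ d * (gr k (2 * g + 1) A b i j : O)) := by
    intro k i j
    have h1 := gr_scale (2 * g + 1) k (α := α) hs0 hfKm hfKn i j
    rw [← hu, ← hB, hbK] at h1
    rw [show 2 * g + 1 - 1 = 2 * g by omega] at h1
    rw [h1]
    congr 1
    simp only [gr, Matrix.of_apply]
    rw [show (X : K[X]) ^ ((i : ℕ) + j + k) * (C (π ^ d) *
      b.map (algebraMap O K)) = C (π ^ d) * ((X ^ ((i : ℕ) + j + k) * b).map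
        (algebraMap O K)) by
      rw [Polynomial.map_mul, Polynomial.map_pow, map_X]; ring]
    rw [tau_C_mul, ← hAK, tau_map (algebraMap O K) hAm]
    rfl
  -- the diagonal matrix with factor e
  have key2 : ∀ (e : K) k, (Matrix.diagonal fun i : Fin (2 * g + 1) =>
      e * s ^ g * (s ^ (i : ℕ))⁻¹)ᵀ * gr k (2 * g + 1) (fk K f) α *
      (Matrix.diagonal fun i : Fin (2 * g + 1) => e * s ^ g * (s ^ (i : ℕ))⁻¹) =
      (e ^ 2 * π ^ d * s ^ k) •
        (gr k (2 * g + 1) A b).map (algebraMap O K) := by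
    intro e k
    ext i j
    rw [diagonal_transpose, mul_diagonal, diagonal_mul, Matrix.smul_apply, Matrix.map_apply]
    have h1 := key k i j
    have h2 : (s ^ (i : ℕ)) ≠ 0 := pow_ne_zero _ hs0
    have h3 : (s ^ (j : ℕ)) ≠ 0 := pow_ne_zero _ hs0
    rw [pow_add, pow_add] at h1
    have h4 : e * s ^ g * (s ^ (i : ℕ))⁻¹ * gr k (2 * g + 1) (fk K f) α i j *
        (e * s ^ g * (s ^ (j : ℕ))⁻¹) = e ^ 2 * (s ^ (i : ℕ))⁻¹ * (s ^ (j : ℕ))⁻¹ *
        (s ^ (2 * g) * gr k (2 * g + 1) (fk K f) α i j) := by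
      have h5 : s ^ (2 * g) = s ^ g * s ^ g := by ring
      rw [h5]; ring
    rw [h4, h1, smul_eq_mul]
    show _ = e ^ 2 * π ^ d * s ^ k * ((gr k (2 * g + 1) A b i j : O) : K)
    field_simp
  have hdetv : ((gr 0 (2 * g + 1) A b).map (algebraMap O K)).det =
      ((gr 0 (2 * g + 1) A b).det : K) := by
    rw [← RingHom.mapMatrix_apply, ← RingHom.map_det]
    rfl
  -- parity
  have hpar : Even d := by
    obtain ⟨z, hz⟩ := hsq
    have hdet := (gdt K (2 * g + 1) (fk K f) hfKm hfKn).2 α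
    rw [hz] at hdet
    have h1 := congrArg Matrix.det (key2 1 0)
    rw [Matrix.det_mul, Matrix.det_mul, det_transpose, det_diagonal, Matrix.det_smul, hdetv,
      hdet, Fintype.card_fin] at h1
    obtain ⟨w, hw⟩ : ∃ w : K, w = ∏ i : Fin (2 * g + 1), (1 * s ^ g * (s ^ (i : ℕ))⁻¹) :=
      ⟨_, rfl⟩
    have hw0 : w ≠ 0 := by
      rw [hw]
      exact Finset.prod_ne_zero_iff.2 fun i _ => mul_ne_zero (mul_ne_zero one_ne_zero
        (pow_ne_zero _ hs0)) (inv_ne_zero (pow_ne_zero _ hs0))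
    rw [← hw, one_pow, one_mul, pow_zero, mul_one, ← zpow_natCast (π ^ d), ← _root_.zpow_mul]
      at h1
    have hr0 : π ^ (d * ((2 * g + 1 : ℕ) : ℤ)) * ((gr 0 (2 * g + 1) A b).det : K) ≠ 0 :=
      mul_ne_zero (zpow_ne_zero _ hp0) hD0
    have hz0 : z ≠ 0 := by
      rintro rfl
      apply hr0
      rw [← h1]
      ring
    obtain ⟨t, ht⟩ := hG.val (w * z) (mul_ne_zero hw0 hz0)
    have ht2 : IsV O π (w * z) t := ht
    have hR : IsV O π (π ^ (d * ((2 * g + 1 : ℕ) : ℤ)) * ((gr 0 (2 * g + 1) A b).det : K))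
        (d * ((2 * g + 1 : ℕ) : ℤ) + 0) :=
      (IsV.pi hp0 _).mul hp0 (IsV.unit ((gr 0 (2 * g + 1) A b).det).2 hD1)
    have hL : IsV O π (w * ((-1) ^ ((2 * g + 1) * (2 * g + 1 - 1) / 2) * (z * z)) * w)
        (0 + (t + t)) := by
      have h2 : w * ((-1) ^ ((2 * g + 1) * (2 * g + 1 - 1) / 2) * (z * z)) * w =
          (-1) ^ ((2 * g + 1) * (2 * g + 1 - 1) / 2) * ((w * z) * (w * z)) := by ring
      rw [h2]
      refine IsV.mul hp0 ?_ (ht2.mul hp0 ht2)
      rcases neg_one_pow_eq_or K ((2 * g + 1) * (2 * g + 1 - 1) / 2) with h3 | h3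
      · rw [h3]
        exact IsV.unit O.one_mem (by rw [inv_one]; exact O.one_mem)
      · rw [h3]
        exact IsV.unit (O.neg_mem _ O.one_mem) (by
          rw [inv_neg, inv_one]; exact O.neg_mem _ O.one_mem)
    rw [h1] at hL
    have h2 := IsV.unique hp0 hpm hpi hr0 hR hL
    push_cast at h2
    refine ⟨t - d * g, ?_⟩
    linarith
  obtain ⟨l, hl⟩ := hpar
  have he : (π ^ (-l)) ^ 2 * π ^ d = 1 := by
    rw [hl, ← zpow_natCast, ← _root_.zpow_mul, ← zpow_add₀ hp0]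
    push_cast
    rw [show -l * 2 + (l + l) = 0 by ring, zpow_zero]
  refine ⟨Matrix.diagonal fun i : Fin (2 * g + 1) => π ^ (-l) * s ^ g *
    (s ^ (i : ℕ))⁻¹, ?_, ?_, ?_⟩
  · rw [det_diagonal]
    exact Finset.prod_ne_zero_iff.2 fun i _ => mul_ne_zero (mul_ne_zero (zpow_ne_zero _ hp0)
      (pow_ne_zero _ hs0)) (inv_ne_zero (pow_ne_zero _ hs0))
  · rw [key2, he, pow_zero, mul_one, one_smul]
    refine ⟨fun i j => (gr 0 (2 * g + 1) A b i j).2, ?_⟩
    rw [hdetv]
    exact ⟨hD0, ((gr 0 (2 * g + 1) A b).det).2, hD1⟩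
  · rw [key2, he, pow_one, one_mul, smul_smul]
    have h1 : π ^ h * s = 1 := by
      rw [hs, mul_inv_cancel₀ (pow_ne_zero _ hp0)]
    rw [h1, one_smul]
    exact fun i j => (gr 1 (2 * g + 1) A b i j).2

end place

end Inf98

/-- **INFK.** -/
theorem infk : INFKStmt := by
  intro R _ _ K _ _ O π hG g D h htm htn hti f hf α hα hsq
  obtain ⟨⟨h1, h2, h3⟩, h4, -, -⟩ := hf
  exact Inf98.main hG g D.top h htm htn hti f h1 h2 h3 h4 α hα hsq

end Pool.T1
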