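import Pool.Agent.H98.T1.INFK

/-!
# T1, NDK: the primes dividing an element of bounded size
-/

set_option autoImplicit false

namespace Pool.T1

open Polynomial Matrix Pool.HYP Pool.AVS IsDedekindDomain

namespace Ndk98

open Inf98

section basic

variable {R : Type} [CommRing R] {K : Type} [Field K] [Algebra R K]

/-- `Lm` as an additive group. -/
def Lg (R : Type) [CommRing R] {K : Type} [Field K] [Algebra R K] (O : ValuationSubring K) (π : K)
    (m : ℤ) : AddSubgroup R where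
  carrier := Lm R O π m
  zero_mem' := by
    show algebraMap R K 0 * π ^ m ∈ O
    rw [map_zero, zero_mul]
    exact O.zero_mem
  add_mem' := by
    intro a b ha hb
    show algebraMap R K (a + b) * π ^ m ∈ O
    rw [map_add, add_mul]
    exact O.add_mem _ _ ha hb
  neg_mem' := by
    intro a ha
    show algebraMap R K (-a) * π ^ m ∈ O
    rw [map_neg, neg_mul]
    exact O.neg_mem _ ha

variable {O : ValuationSubring K} {π : K}

theorem mem_Lg {m : ℤ} {a : R} : a ∈ Lg R O π m ↔ algebraMap R K a * π ^ m ∈ O := Iff.rfl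

theorem Lg_mono (hp : π ≠ 0) (hm : π ∈ O) {m n : ℤ} (h : m ≤ n) {a : R}
    (ha : a ∈ Lg R O π m) : a ∈ Lg R O π n := by
  rw [mem_Lg] at ha ⊢
  have h1 : algebraMap R K a * π ^ n = algebraMap R K a * π ^ m * π ^ (n - m) := by
    rw [mul_assoc, ← zpow_add₀ hp, show m + (n - m) = n by ring]
  rw [h1]
  exact O.mul_mem _ _ ha (zpow_mem hm (by omega))

theorem Lg_mul (hp : π ≠ 0) {m n : ℤ} {a b : R}
    (ha : a ∈ Lg R O π m) (hb : b ∈ Lg R O π n) : a * b ∈ Lg R O π (m + n) := by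
  rw [mem_Lg] at ha hb ⊢
  have h1 : algebraMap R K (a * b) * π ^ (m + n) =
      (algebraMap R K a * π ^ m) * (algebraMap R K b * π ^ n) := by
    rw [map_mul, zpow_add₀ hp]; ring
  rw [h1]
  exact O.mul_mem _ _ ha hb

/-- The leading coefficient. -/
noncomputable def lc (R : Type) [CommRing R] {K : Type} [Field K] [Algebra R K]
    (O : ValuationSubring K) (π : K) (m : ℤ) : Lg R O π m →+ IsLocalRing.ResidueField O where
  toFun a := IsLocalRing.residue O ⟨algebraMap R K a * π ^ m, a.2⟩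
  map_zero' := by
    rw [← map_zero (IsLocalRing.residue O)]
    congr 1
    apply Subtype.ext
    show algebraMap R K 0 * π ^ m = 0
    rw [map_zero, zero_mul]
  map_add' := by
    intro a b
    rw [← map_add (IsLocalRing.residue O)]
    congr 1
    apply Subtype.ext
    show algebraMap R K (a + b) * π ^ m = algebraMap R K a * π ^ m + algebraMap R K b * π ^ m
    rw [map_add, add_mul]

end basic

section gr

variable {R : Type} [CommRing R] [IsDomain R] {K : Type} [Field K] [Algebra R K]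
  {O : ValuationSubring K} {π : K}

/-- The maximal ideal is generated by the uniformizer. -/
theorem div_mem (hG : GR R O π) (z : O) (hz : IsLocalRing.residue O z = 0) :
    (z : K) / π ∈ O := by
  by_cases h0 : (z : K) = 0
  · rw [h0, zero_div]
    exact O.zero_mem
  obtain ⟨n, h1, h2⟩ := hG.val z h0
  have hn : 0 ≤ n := by
    apply nonneg hG.pi_ne hG.pi_mem hG.pi_inv
    have h3 : π ^ n = (z : K) * (z / π ^ n)⁻¹ := by
      have := zpow_ne_zero n hG.pi_ne
      field_simp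
    rw [h3]
    exact O.mul_mem _ _ z.2 h2
  have hn0 : n ≠ 0 := by
    rintro rfl
    rw [zpow_zero, div_one] at h2
    have h3 : IsUnit z := by
      refine IsUnit.of_mul_eq_one (⟨_, h2⟩ : O) ?_
      apply Subtype.ext
      show (z : K) * (z : K)⁻¹ = 1
      exact mul_inv_cancel₀ h0
    rw [← IsLocalRing.residue_ne_zero_iff_isUnit] at h3
    exact h3 hz
  have h3 : (z : K) / π = z / π ^ n * π ^ (n - 1) := by
    rw [zpow_sub₀ hG.pi_ne, zpow_one]
    have := zpow_ne_zero n hG.pi_ne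
    have := hG.pi_ne
    field_simp
  rw [h3]
  exact O.mul_mem _ _ h1 (zpow_mem hG.pi_mem (by omega))

theorem lc_ker (hG : GR R O π) (m : ℤ) (a : Lg R O π m) (ha : lc R O π m a = 0) :
    (a : R) ∈ Lg R O π (m - 1) := by
  have h1 := div_mem hG _ ha
  rw [mem_Lg]
  have h2 : algebraMap R K a * π ^ (m - 1) = algebraMap R K a * π ^ m / π := by
    rw [zpow_sub₀ hG.pi_ne, zpow_one, mul_div_assoc]
  rw [h2]
  exact h1

/-- **The size of `L(n)`.** -/
theorem card_Lg (hG : GR R O π) (n : ℕ) :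
    Finite (Lg R O π ((n : ℤ) - 1)) ∧ Nat.card (Lg R O π ((n : ℤ) - 1)) ≤ qq O ^ n := by
  induction n with
  | zero =>
    have h1 : ∀ a : Lg R O π (((0 : ℕ) : ℤ) - 1), a = 0 := by
      intro a
      apply Subtype.ext
      apply hG.small
      exact Lg_mono hG.pi_ne hG.pi_mem (le_of_eq (by norm_num)) a.2
    have h2 : Subsingleton (Lg R O π (((0 : ℕ) : ℤ) - 1)) := ⟨fun a b => by rw [h1 a, h1 b]⟩
    refine ⟨inferInstance, ?_⟩
    rw [pow_zero]
    exact Finite.card_le_one_iff_subsingleton.2 h2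
  | succ n ih =>
    obtain ⟨ih1, ih2⟩ := ih
    have hres := hG.res
    obtain ⟨φ, hφ⟩ : ∃ φ, φ = lc R O π (((n + 1 : ℕ) : ℤ) - 1) := ⟨_, rfl⟩
    have hk : ∀ a : φ.ker, (a : R) ∈ Lg R O π ((n : ℤ) - 1) := by
      intro a
      have h1 : φ a.1 = 0 := a.2
      have h2 := lc_ker hG _ a.1 (by rw [← hφ]; exact h1)
      exact Lg_mono hG.pi_ne hG.pi_mem (le_of_eq (by push_cast; ring)) h2
    have hinj : Function.Injective (fun a : φ.ker => (⟨(a : R), hk a⟩ : Lg R O π ((n : ℤ) - 1))) := by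
      intro a b hab
      apply Subtype.ext
      apply Subtype.ext
      exact congrArg (fun z : Lg R O π ((n : ℤ) - 1) => (z : R)) hab
    have hfk : Finite φ.ker := Finite.of_injective _ hinj
    have hck : Nat.card φ.ker ≤ qq O ^ n := (Nat.card_le_card_of_injective _ hinj).trans ih2
    have hqi : Function.Injective (QuotientAddGroup.kerLift φ) := QuotientAddGroup.kerLift_injective φ
    have hfq : Finite (Lg R O π (((n + 1 : ℕ) : ℤ) - 1) ⧸ φ.ker) := Finite.of_injective _ hqi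
    have hcq : Nat.card (Lg R O π (((n + 1 : ℕ) : ℤ) - 1) ⧸ φ.ker) ≤ qq O :=
      Nat.card_le_card_of_injective _ hqi
    refine ⟨Finite.of_equiv _ (AddSubgroup.addGroupEquivQuotientProdAddSubgroup (s := φ.ker)).symm,
      ?_⟩
    rw [AddSubgroup.card_eq_card_quotient_mul_card_addSubgroup φ.ker, pow_succ, mul_comm (qq O ^ n)]
    exact Nat.mul_le_mul hcq hck

theorem exists_Lg (hG : GR R O π) (a : R) : ∃ n : ℕ, a ∈ Lg R O π (n : ℤ) := by
  by_cases h0 : algebraMap R K a = 0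
  · refine ⟨0, ?_⟩
    rw [mem_Lg, h0, zero_mul]
    exact O.zero_mem
  · obtain ⟨n, h1, -⟩ := hG.val _ h0
    refine ⟨(-n).toNat, ?_⟩
    apply Lg_mono hG.pi_ne hG.pi_mem (Int.self_le_toNat (-n))
    rw [mem_Lg, _root_.zpow_neg, ← div_eq_mul_inv]
    exact h1

end gr

end Ndk98

open Ndk98 in
/-- **NDK.** -/
theorem ndk : NDKStmt := by
  intro R _ _ K _ _ _ O π hG
  obtain ⟨c, hc⟩ := hG.big
  refine ⟨c * qq O, ?_⟩
  intro m a P ha0 ha haP
  have hQ : 0 < qq O := by
    have := hG.res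
    exact Nat.card_pos
  obtain ⟨I, hI⟩ : ∃ I : Ideal R, I = Ideal.span {a} := ⟨_, rfl⟩
  have hI0 : I ≠ ⊥ := by
    rw [hI]
    intro h1
    exact ha0 (Ideal.span_singleton_eq_bot.1 h1)
  have hIP : I ≤ P.asIdeal := by
    rw [hI, Ideal.span_singleton_le_iff_mem]
    exact haP
  have hfin := hG.fin I hI0
  have h1 : Nat.card (R ⧸ P.asIdeal) ≤ Nat.card (R ⧸ I) :=
    Nat.card_le_card_of_surjective _ (Ideal.Quotient.factor_surjective hIP)
  refine h1.trans ?_
  -- representatives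
  have hrep : ∀ q : R ⧸ I, ∃ n : ℕ, ∃ r : R, r ∈ Lg R O π (n : ℤ) ∧ Ideal.Quotient.mk I r = q := by
    intro q
    obtain ⟨r, hr⟩ := Ideal.Quotient.mk_surjective q
    obtain ⟨n, hn⟩ := exists_Lg hG r
    exact ⟨n, r, hn, hr⟩
  choose n r hr1 hr2 using hrep
  have := Fintype.ofFinite (R ⧸ I)
  obtain ⟨M, hM⟩ : ∃ M : ℕ, M = m + ∑ q, n q := ⟨_, rfl⟩
  obtain ⟨ψ, hψ⟩ : ∃ ψ : Lg R O π (M : ℤ) →+ R ⧸ I,
      ψ = (Ideal.Quotient.mk I).toAddMonoidHom.comp (Lg R O π (M : ℤ)).subtype := ⟨_, rfl⟩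
  have hψs : Function.Surjective ψ := by
    intro q
    refine ⟨⟨r q, Lg_mono hG.pi_ne hG.pi_mem ?_ (hr1 q)⟩, ?_⟩
    · have h2 : n q ≤ ∑ q, n q := Finset.single_le_sum (f := n) (fun _ _ => Nat.zero_le _)
        (Finset.mem_univ q)
      exact_mod_cast (by omega : n q ≤ M)
    · rw [hψ]
      exact hr2 q
  obtain ⟨hf1, hc1⟩ := card_Lg hG (M + 1)
  rw [show ((M + 1 : ℕ) : ℤ) - 1 = (M : ℤ) by push_cast; ring] at hf1 hc1
  have hcard := AddSubgroup.card_eq_card_quotient_mul_card_addSubgroup ψ.ker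
  have hquo : Nat.card (Lg R O π (M : ℤ) ⧸ ψ.ker) = Nat.card (R ⧸ I) :=
    Nat.card_congr (QuotientAddGroup.quotientKerEquivOfSurjective ψ hψs).toEquiv
  -- the kernel is large
  obtain ⟨M', hM'⟩ : ∃ M' : ℕ, M' = ∑ q, n q := ⟨_, rfl⟩
  have hMM : M = m + M' := by rw [hM, hM']
  have hmem : ∀ b : Lg R O π (M' : ℤ), a * (b : R) ∈ Lg R O π (M : ℤ) := by
    intro b
    have h2 := Lg_mul (O := O) hG.pi_ne (show a ∈ Lg R O π (m : ℤ) from ha) b.2
    rwa [show (m : ℤ) + (M' : ℤ) = (M : ℤ) by rw [hMM]; push_cast; ring] at h2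
  have hker : ∀ b : Lg R O π (M' : ℤ), (⟨a * (b : R), hmem b⟩ : Lg R O π (M : ℤ)) ∈ ψ.ker := by
    intro b
    rw [AddMonoidHom.mem_ker, hψ]
    show Ideal.Quotient.mk I (a * (b : R)) = 0
    rw [Ideal.Quotient.eq_zero_iff_mem, hI]
    exact Ideal.mul_mem_right _ _ (Ideal.mem_span_singleton_self a)
  have hinj : Function.Injective (fun b : Lg R O π (M' : ℤ) =>
      (⟨⟨a * (b : R), hmem b⟩, hker b⟩ : ψ.ker)) := by
    intro b b' hbb
    apply Subtype.ext
    have h2 : a * (b : R) = a * (b' : R) := congrArg (fun z : ψ.ker => ((z : Lg R O π (M : ℤ)) : R)) hbb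
    exact mul_left_cancel₀ ha0 h2
  have hk : Nat.card (Lg R O π (M' : ℤ)) ≤ Nat.card ψ.ker := Nat.card_le_card_of_injective _ hinj
  have hb := hc M'
  have hb2 : (Lm R O π (M' : ℤ)).ncard = Nat.card (Lg R O π (M' : ℤ)) := rfl
  rw [hb2] at hb
  rw [hquo] at hcard
  -- conclusion
  have h3 : Nat.card (R ⧸ I) * qq O ^ M' ≤ (c * qq O * qq O ^ m) * qq O ^ M' := by
    calc Nat.card (R ⧸ I) * qq O ^ M' ≤ Nat.card (R ⧸ I) * (c * Nat.card ψ.ker) :=
          Nat.mul_le_mul_left _ (hb.trans (Nat.mul_le_mul_left _ hk))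
      _ = c * (Nat.card (R ⧸ I) * Nat.card ψ.ker) := by ring
      _ ≤ c * qq O ^ (M + 1) := Nat.mul_le_mul_left _ (hcard ▸ hc1)
      _ = (c * qq O * qq O ^ m) * qq O ^ M' := by rw [hMM]; ring
  exact Nat.le_of_mul_le_mul_right h3 (pow_pos hQ _)

end Pool.T1
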